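import Pool.Agent.W106.CW.Stm

/-!
Project CW (helper106): the pointwise inequality (GIneq).
-/

set_option autoImplicit false

namespace Pool.Agent.W721.CWGG

open Pool.Agent.W106.CW MeasureTheory

theorem gIneq : GIneq := by
  intro F M hF hMc hF0 hM0 hMm u c hu0 hu1 hc0 hc1
  have hsub : ∀ t ∈ Set.uIcc c u, 0 < t ∧ t < 1 := by
    intro t ht
    rw [Set.mem_uIcc] at ht
    rcases ht with ⟨h1, h2⟩ | ⟨h1, h2⟩
    · exact ⟨by linarith, by linarith⟩
    · exact ⟨by linarith, by linarith⟩
  have hFc : ContinuousOn F (Set.uIcc c u) := by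
    intro t ht
    obtain ⟨h1, h2⟩ := hsub t ht
    exact (hF t h1 h2).continuousAt.continuousWithinAt
  have hMc' : ContinuousOn M (Set.uIcc c u) := hMc.mono (fun t ht => hsub t ht)
  have hFmono : ∀ a b, 0 < a → a ≤ b → b < 1 → F a ≤ F b := by
    intro a b ha hab hb
    have h1 : MonotoneOn F (Set.Ioo 0 1) := by
      apply monotoneOn_of_deriv_nonneg (convex_Ioo 0 1)
      · intro t ht
        exact (hF t ht.1 ht.2).continuousAt.continuousWithinAt
      · intro t ht
        rw [interior_Ioo] at ht
        exact (hF t ht.1 ht.2).differentiableAt.differentiableWithinAt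
      · intro t ht
        rw [interior_Ioo] at ht
        rw [(hF t ht.1 ht.2).deriv]
        exact hM0 t ht.1 ht.2
    exact h1 ⟨ha, by linarith⟩ ⟨by linarith, hb⟩ hab
  have hPmono : ∀ a b, 0 < a → a ≤ b → b < 1 → a ^ 2 * F a * M a ≤ b ^ 2 * F b * M b := by
    intro a b ha hab hb
    have h1 := hFmono a b ha hab hb
    have h2 := hMm (show a ∈ Set.Ioo (0 : ℝ) 1 from ⟨ha, by linarith⟩)
      (show b ∈ Set.Ioo (0 : ℝ) 1 from ⟨by linarith, hb⟩) hab
    have h3 := hF0 a ha (by linarith)
    have h4 := hM0 a ha (by linarith)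
    have h5 := hF0 b (by linarith) hb
    have h6 : a ^ 2 ≤ b ^ 2 := by nlinarith
    have h7 : a ^ 2 * F a ≤ b ^ 2 * F b := mul_le_mul h6 h1 h3 (by positivity)
    exact mul_le_mul h7 h2 h4 (by positivity)
  -- the four functions
  have i1 : IntervalIntegrable (fun t => t * F t * (2 * F t - (2 - t) * M t)) volume c u := by
    apply ContinuousOn.intervalIntegrable
    fun_prop
  have i2 : IntervalIntegrable (fun t => F t * (F u - F t) + (t ^ 2 * F t * M t - c ^ 2 * F c * M c))
      volume c u := by
    apply ContinuousOn.intervalIntegrable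
    fun_prop
  have i3 : IntervalIntegrable (fun t => (1 - 2 * t) * F t ^ 2 + t * (1 - t) * (2 * F t * M t))
      volume c u := by
    apply ContinuousOn.intervalIntegrable
    fun_prop
  have i4 : IntervalIntegrable (fun _ : ℝ => c ^ 2 * F c * M c) volume c u := by
    apply ContinuousOn.intervalIntegrable
    fun_prop
  have e3 : ∫ t in c..u, ((1 - 2 * t) * F t ^ 2 + t * (1 - t) * (2 * F t * M t)) =
      u * (1 - u) * F u ^ 2 - c * (1 - c) * F c ^ 2 := by
    have := intervalIntegral.integral_eq_sub_of_hasDerivAt
      (f := fun t => t * (1 - t) * F t ^ 2)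
      (f' := fun t => (1 - 2 * t) * F t ^ 2 + t * (1 - t) * (2 * F t * M t)) (a := c) (b := u)
      (by
        intro t ht
        obtain ⟨h1, h2⟩ := hsub t ht
        have d1 := hF t h1 h2
        have d2 : HasDerivAt (fun t : ℝ => t * (1 - t)) (1 - 2 * t) t := by
          have := (hasDerivAt_id t).mul ((hasDerivAt_const t (1 : ℝ)).sub (hasDerivAt_id t))
          convert! this using 1
          simp only [id, Pi.sub_apply]
          ring
        have d3 := d2.mul (d1.pow 2)
        convert! d3 using 1
        simp only [Pi.pow_apply]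
        ring) i3
    exact this
  have e4 : ∫ _ in c..u, (c ^ 2 * F c * M c) = (u - c) * (c ^ 2 * F c * M c) := by
    rw [intervalIntegral.integral_const, smul_eq_mul]
  have e5 : F u * (∫ t in c..u, F t) = ∫ t in c..u, F u * F t := by
    rw [intervalIntegral.integral_const_mul]
  have e6 : ∫ t in c..u, F u * F t =
      (∫ t in c..u, t * F t * (2 * F t - (2 - t) * M t)) +
      ((∫ t in c..u, (F t * (F u - F t) + (t ^ 2 * F t * M t - c ^ 2 * F c * M c))) +
      ((∫ t in c..u, ((1 - 2 * t) * F t ^ 2 + t * (1 - t) * (2 * F t * M t))) +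
        ∫ _ in c..u, (c ^ 2 * F c * M c))) := by
    rw [← intervalIntegral.integral_add i3 i4, ← intervalIntegral.integral_add i2 (i3.add i4),
      ← intervalIntegral.integral_add i1 (i2.add (i3.add i4))]
    apply intervalIntegral.integral_congr
    intro t _
    simp only
    ring
  have e7 : 0 ≤ ∫ t in c..u, (F t * (F u - F t) + (t ^ 2 * F t * M t - c ^ 2 * F c * M c)) := by
    rcases le_total c u with hcu | hcu
    · apply intervalIntegral.integral_nonneg hcu
      intro t ht
      have h1 := hFmono t u (by linarith [ht.1]) ht.2 hu1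
      have h2 := hPmono c t hc0 ht.1 (by linarith [ht.2])
      have h3 := hF0 t (by linarith [ht.1]) (by linarith [ht.2])
      have h4 : 0 ≤ F t * (F u - F t) := mul_nonneg h3 (by linarith)
      linarith
    · rw [intervalIntegral.integral_symm]
      rw [← intervalIntegral.integral_neg]
      apply intervalIntegral.integral_nonneg hcu
      intro t ht
      have h1 := hFmono u t hu0 ht.1 (by linarith [ht.2])
      have h2 := hPmono t c (by linarith [ht.1]) ht.2 hc1
      have h3 := hF0 t (by linarith [ht.1]) (by linarith [ht.2])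
      have h4 : 0 ≤ F t * (F t - F u) := mul_nonneg h3 (by linarith)
      nlinarith
  rw [e5, e6, e3, e4]
  linarith

end Pool.Agent.W721.CWGG
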