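import Pool.Agent.W106.CW.Stm

/-!
Project CW (helper106): existence and uniqueness of the good root (RootEx).
-/

set_option autoImplicit false

namespace Pool.Agent.W721.CWROOTEX

open Pool.Agent.W106.CW MeasureTheory

lemma der (s g : ℝ) (hg : 0 < g) :
    HasDerivAt (fun g => Lam g + (2 - g) ^ 2 * s) ((2 - g) * (1 - 2 * s * g) / g) g := by
  have h1 : HasDerivAt (fun t : ℝ => 2 * Real.log t - t) (2 * g⁻¹ - 1) g :=
    ((Real.hasDerivAt_log hg.ne').const_mul 2).sub (hasDerivAt_id g)
  have h2 : HasDerivAt (fun t : ℝ => (2 - t) ^ 2 * s) (-(2 * (2 - g)) * s) g := by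
    have h3 := (((hasDerivAt_const g (2 : ℝ)).sub (hasDerivAt_id g)).pow 2).mul_const s
    convert! h3 using 1
    simp only [id, Pi.sub_apply]
    push_cast
    ring
  have h4 := h1.add h2
  have h5 : (2 - g) * (1 - 2 * s * g) / g = 2 * g⁻¹ - 1 + -(2 * (2 - g)) * s := by
    field_simp
    ring
  rw [h5]
  exact h4

lemma Lam_lt {c : ℝ} (hc : 0 < c) (hc1 : c < 1) : Lam c < -1 := by
  unfold Lam
  have := Real.log_le_sub_one_of_pos hc
  linarith

lemma key {s c g : ℝ} (hc1 : c < 1) (hg : 0 < g) (hgc : g ≤ c)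
    (h : Lam g + (2 - g) ^ 2 * s = Lam c) : g ≤ (2 - g) * (1 - 2 * s * g) := by
  have hc : 0 < c := by linarith
  have h1 := Lam_lt hc hc1
  have h2 : -Real.log g ≤ 1 / g - 1 := by
    have := Real.log_le_sub_one_of_pos (inv_pos.2 hg)
    rw [Real.log_inv] at this
    rw [one_div]
    exact this
  have h3 : g * -Real.log g ≤ 1 - g := by
    have h4 : g * -Real.log g ≤ g * (1 / g - 1) := mul_le_mul_of_nonneg_left h2 hg.le
    have h5 : g * (1 / g - 1) = 1 - g := by field_simp
    linarith
  have h6 : (2 - g) * ((2 - g) * (1 - 2 * s * g)) = (2 - g) ^ 2 - 2 * g * (Lam c - Lam g) := by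
    rw [← h]; ring
  have h7 : 2 * g * (Lam c - Lam g) ≤ (2 - g) ^ 2 - g * (2 - g) := by
    have h8 : Lam g = 2 * Real.log g - g := rfl
    rw [h8]
    nlinarith
  have h9 : (2 - g) * g ≤ (2 - g) * ((2 - g) * (1 - 2 * s * g)) := by
    rw [h6]; linarith
  exact le_of_mul_le_mul_left h9 (by linarith)

theorem rootEx : RootEx := by
  refine ⟨?_, ?_, ?_⟩
  · intro s c hc0 hc1
    have hL := Lam_lt hc0 hc1
    set g0 : ℝ := Real.exp (Lam c / 2 - 2 * |s| - 1) with hg0
    have hg0p : 0 < g0 := Real.exp_pos _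
    have habs := abs_nonneg s
    have hlog : Real.log g0 = Lam c / 2 - 2 * |s| - 1 := Real.log_exp _
    have hg0c : g0 ≤ c := by
      have h1 : Lam c / 2 - 2 * |s| - 1 ≤ Real.log c := by
        unfold Lam; linarith
      calc g0 ≤ Real.exp (Real.log c) := Real.exp_le_exp.2 h1
        _ = c := Real.exp_log hc0
    have hlow : Lam g0 + (2 - g0) ^ 2 * s ≤ Lam c := by
      have h1 : (2 - g0) ^ 2 ≤ 4 := by nlinarith
      have h2 : (2 - g0) ^ 2 * s ≤ 4 * |s| := by
        calc (2 - g0) ^ 2 * s ≤ (2 - g0) ^ 2 * |s| :=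
              mul_le_mul_of_nonneg_left (le_abs_self s) (sq_nonneg _)
          _ ≤ 4 * |s| := mul_le_mul_of_nonneg_right h1 habs
      have h3 : Lam g0 = 2 * Real.log g0 - g0 := rfl
      rw [h3, hlog]
      linarith
    have hcont : ∀ a b : ℝ, 0 < a → ContinuousOn (fun g => Lam g + (2 - g) ^ 2 * s)
        (Set.Icc a b) := by
      intro a b ha t ht
      exact (der s t (by linarith [ht.1])).continuousAt.continuousWithinAt
    rcases lt_or_ge s 0 with hs | hs
    · have h2 : Lam c ≤ (fun g => Lam g + (2 - g) ^ 2 * s) 2 := by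
        simp only
        have h3 : Lam 2 = 2 * Real.log 2 - 2 := rfl
        rw [h3]
        have := Real.log_two_gt_d9
        nlinarith
      obtain ⟨g, hg, hge⟩ := intermediate_value_Icc (show g0 ≤ 2 by linarith)
        (hcont g0 2 hg0p) ⟨hlow, h2⟩
      have hge' : Lam g + (2 - g) ^ 2 * s = Lam c := hge
      refine ⟨g, by linarith [hg.1], ?_, ?_, hge'⟩
      · rcases lt_or_eq_of_le hg.2 with h | h
        · exact h
        · exfalso
          rw [h] at hge'
          have h3 : Lam 2 = 2 * Real.log 2 - 2 := rfl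
          rw [h3] at hge'
          have := Real.log_two_gt_d9
          nlinarith
      · have : 0 < g := by linarith [hg.1]
        nlinarith
    · have h2 : Lam c ≤ (fun g => Lam g + (2 - g) ^ 2 * s) c := by
        simp only
        have := mul_nonneg (sq_nonneg (2 - c)) hs
        linarith
      obtain ⟨g, hg, hge⟩ := intermediate_value_Icc hg0c (hcont g0 c hg0p) ⟨hlow, h2⟩
      have hge' : Lam g + (2 - g) ^ 2 * s = Lam c := hge
      have hgp : 0 < g := by linarith [hg.1]
      have h3 := key hc1 hgp hg.2 hge'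
      have h4 : g < 2 := by linarith [hg.2]
      refine ⟨g, hgp, h4, ?_, hge'⟩
      by_contra h5
      push Not at h5
      nlinarith
  · have aux : ∀ s c g g' : ℝ, Root s c g → Root s c g' → ¬ g < g' := by
      rintro s c g g' ⟨h1, h2, h3, h4⟩ ⟨k1, k2, k3, k4⟩ hlt
      have hder : ∀ x ∈ Set.Ioo g g', HasDerivAt (fun g => Lam g + (2 - g) ^ 2 * s)
          ((2 - x) * (1 - 2 * s * x) / x) x := fun x hx => der s x (by linarith [hx.1])
      have hcont : ContinuousOn (fun g => Lam g + (2 - g) ^ 2 * s) (Set.Icc g g') := by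
        intro t ht
        exact (der s t (by linarith [ht.1])).continuousAt.continuousWithinAt
      obtain ⟨x, hx, hx0⟩ := exists_hasDerivAt_eq_zero hlt hcont
        (by
          show Lam g + (2 - g) ^ 2 * s = Lam g' + (2 - g') ^ 2 * s
          rw [h4, k4]) hder
      have hx1 : 0 < x := by linarith [hx.1]
      have hx2 : 0 < 2 - x := by linarith [hx.2]
      have hx3 : 0 < 1 - 2 * s * x := by
        rcases le_total 0 s with hs | hs
        · nlinarith [hx.2]
        · nlinarith
      have : 0 < (2 - x) * (1 - 2 * s * x) / x := by positivity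
      linarith
    intro s c g g' h h'
    rcases lt_trichotomy g g' with h1 | h1 | h1
    · exact absurd h1 (aux s c g g' h h')
    · exact h1
    · exact absurd h1 (aux s c g' g h' h)
  · rintro s c g hs hc0 hc1 ⟨h1, h2, h3, h4⟩
    have hgc : g ≤ c := by
      by_contra hlt
      push Not at hlt
      have hder : ∀ x ∈ Set.Ioo c g, HasDerivAt (fun g => Lam g + (2 - g) ^ 2 * 0)
          ((2 - x) * (1 - 2 * 0 * x) / x) x := fun x hx => der 0 x (by linarith [hx.1])
      have hcont : ContinuousOn (fun g => Lam g + (2 - g) ^ 2 * 0) (Set.Icc c g) := by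
        intro t ht
        exact (der 0 t (by linarith [ht.1])).continuousAt.continuousWithinAt
      obtain ⟨x, hx, hx0⟩ := exists_hasDerivAt_eq_slope _ _ hlt hcont hder
      have hx1 : 0 < x := by linarith [hx.1]
      have hx2 : 0 < 2 - x := by linarith [hx.2]
      have h5 : 0 < (2 - x) * (1 - 2 * 0 * x) / x := by
        have : 0 < 1 - 2 * 0 * x := by linarith
        positivity
      rw [hx0, div_pos_iff] at h5
      have h6 := mul_nonneg (sq_nonneg (2 - g)) hs
      rcases h5 with ⟨h7, -⟩ | ⟨-, h7⟩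
      · linarith
      · linarith
    exact ⟨hgc, key hc1 h1 hgc h4⟩

end Pool.Agent.W721.CWROOTEX
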